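import Pool.Agent.H58.SP.Chn

/-!
# Orders `p ^ a * q` of torsion units of integral group rings, p-solvable normal subgroups
-/

set_option autoImplicit false

namespace Pool.Agent.Results.MP_6f6ee6_al.PSolvableOrders

universe u

/-- `M` is a normal subgroup of the finite group `G` and it is `p`-solvable: there is a chain
`1 = N 0 ≤ N 1 ≤ ... ≤ N k = M` of normal subgroups of `G` each of whose indices is a power of `p`
or is not divisible by `p`. -/
def PSolvableIn {G : Type u} [Group G] (p : ℕ) (M : Subgroup G) : Prop :=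
  ∃ (k : ℕ) (N : ℕ → Subgroup G), N 0 = ⊥ ∧ N k = M ∧ (∀ i, (N i).Normal) ∧
    (∀ i < k, N i ≤ N (i + 1)) ∧
    ∀ i < k, (∃ e : ℕ, (N i).relIndex (N (i + 1)) = p ^ e) ∨ ¬ p ∣ (N i).relIndex (N (i + 1))

/-- if the normalized unit group of the integral group ring of `H` has an element of order `n`,
then `H` has an element of order `n` -/
def OrderOccurs (H : Type u) [Group H] (n : ℕ) : Prop :=
  ∀ v : (MonoidAlgebra ℤ H)ˣ,
    (MonoidAlgebra.lift ℤ ℤ H (1 : H →* ℤ)) (v : MonoidAlgebra ℤ H) = 1 →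
      IsOfFinOrder v → orderOf v = n → ∃ h : H, orderOf h = n

theorem SPn_of_orderOccurs {H : Type u} [Group H] {n : ℕ} (hn : 0 < n) (h : OrderOccurs H n) :
    H58.SP.SPn H n := by
  intro w haug hw
  have h1 : w ^ n = 1 := by rw [← hw]; exact pow_orderOf_eq_one w
  let v : (MonoidAlgebra ℤ H)ˣ := Units.ofPowEqOne w n h1 hn.ne'
  have hv : (v : MonoidAlgebra ℤ H) = w := rfl
  have h2 : orderOf v = n := by rw [← orderOf_units, hv, hw]
  refine h v ?_ ?_ h2
  · rw [hv, H58.SP.lift_one_eq, haug]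
  · rw [← orderOf_pos_iff, h2]
    exact hn

theorem result (p q : ℕ) (hp : p.Prime) (hq : q.Prime) (hpq : p ≠ q) (a : ℕ)
    (G : Type u) [Group G] [Finite G] (M : Subgroup G) [M.Normal] (hM : PSolvableIn p M)
    (hQ : ¬ p * q ∣ M.index ∨ OrderOccurs (G ⧸ M) (p ^ a * q))
    (v : (MonoidAlgebra ℤ G)ˣ)
    (haug : (MonoidAlgebra.lift ℤ ℤ G (1 : G →* ℤ)) (v : MonoidAlgebra ℤ G) = 1)
    (hfin : IsOfFinOrder v) (hdvd : p ^ a * q ∣ orderOf v) :
    ∃ g : G, orderOf g = p ^ a * q := by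
  refine H58.SP.SPn_unit ?_ v haug hfin hdvd
  cases a with
  | zero =>
    rw [pow_zero, one_mul]
    exact H58.SP.SPn_prime hq
  | succ a =>
    obtain ⟨k, N, h0, hk, hn, hle, hrel⟩ := hM
    have htop : H58.SP.SPn (G ⧸ M) (p ^ (a + 1) * q) := by
      rcases hQ with hQ | hQ
      · exact H58.SP.SPn_top hp hq hpq a hQ
      · exact SPn_of_orderOccurs (Nat.mul_pos (pow_pos hp.pos _) hq.pos) hQ
    subst hk
    have h1 := H58.SP.chain_all hp hq hpq a N k hle hrel htop
    exact H58.SP.SPn_of_le_bot (N 0) h0 h1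

end Pool.Agent.Results.MP_6f6ee6_al.PSolvableOrders
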