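import Pool.Agent.H65.SP.Frob
import Pool.Agent.H65.SP.Uniq

/-!
# Orders of torsion units of integral group rings and normal subgroups with trivial intersection
-/

set_option autoImplicit false

namespace Pool.Agent.Results.MP_6f6ee6_al.TameKernels

universe u

/-- the factor `B / A` acts on a finite abelian group `V`, not zero and of order prime to `p`, in such a
way that the elements of order `p` of `B / A` fix only `0` (the action is given as an action of `B` in
which `A` acts trivially) -/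
def FreeFactor {G : Type u} [Group G] (p : ℕ) (A B : Subgroup G) : Prop :=
  ∃ (V : Type) (_ : AddCommGroup V) (_ : DistribMulAction B V), Finite V ∧ Nontrivial V ∧
    (Nat.card V).Coprime p ∧ (∀ x : B, (x : G) ∈ A → ∀ v : V, x • v = v) ∧
    ∀ x : B, (x : G) ∉ A → (x : G) ^ p ∈ A → ∀ v : V, x • v = v → v = 0

/-- `M` is `p`-tame in `G`: there is a chain `1 = N 0 ≤ N 1 ≤ ... ≤ N k = M` of normal subgroups of `G`
such that for every `i < k` the index of `N i` in `N (i + 1)` is a power of `p`, or this index is prime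
to `p`, or the factor `N (i + 1) / N i` is as in `FreeFactor` -/
def TameIn {G : Type u} [Group G] (p : ℕ) (M : Subgroup G) : Prop :=
  ∃ (k : ℕ) (N : ℕ → Subgroup G), N 0 = ⊥ ∧ N k = M ∧ (∀ i, (N i).Normal) ∧
    (∀ i < k, N i ≤ N (i + 1)) ∧
    ∀ i < k, (∃ e : ℕ, (N i).relIndex (N (i + 1)) = p ^ e) ∨ ¬ p ∣ (N i).relIndex (N (i + 1)) ∨
      FreeFactor p (N i) (N (i + 1))

/-- `v` is a unit of finite order and of augmentation `1` of the integral group ring of `G` -/
def IsTorsion {G : Type u} [Group G] (v : (MonoidAlgebra ℤ G)ˣ) : Prop :=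
  (MonoidAlgebra.lift ℤ ℤ G (1 : G →* ℤ)) (v : MonoidAlgebra ℤ G) = 1 ∧ IsOfFinOrder v

/-- the map of the unit groups of the integral group rings induced by a homomorphism -/
noncomputable def unitMap {G H : Type u} [Group G] [Group H] (f : G →* H) :
    (MonoidAlgebra ℤ G)ˣ →* (MonoidAlgebra ℤ H)ˣ :=
  Units.map (MonoidAlgebra.mapDomainRingHom ℤ f : MonoidAlgebra ℤ G →* MonoidAlgebra ℤ H)

section

variable {G H : Type u} [Group G] [Group H]

theorem isTorsion_iff (v : (MonoidAlgebra ℤ G)ˣ) :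
    IsTorsion v ↔ H58.SP.sg (Set.univ : Set G) (v : MonoidAlgebra ℤ G) = 1 ∧
      0 < orderOf (v : MonoidAlgebra ℤ G) := by
  unfold IsTorsion
  rw [H58.SP.lift_one_eq, ← orderOf_pos_iff, orderOf_units]

theorem orderOf_unitMap (f : G →* H) (v : (MonoidAlgebra ℤ G)ˣ) :
    orderOf (unitMap f v) = orderOf (H65.SP.mp f (v : MonoidAlgebra ℤ G)) := by
  rw [← orderOf_units]
  rfl

theorem isTorsion_unitMap (f : G →* H) {v : (MonoidAlgebra ℤ G)ˣ} (hv : IsTorsion v) :
    IsTorsion (unitMap f v) := by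
  rw [isTorsion_iff] at hv ⊢
  change H58.SP.sg (Set.univ : Set H) (H65.SP.mp f (v : MonoidAlgebra ℤ G)) = 1 ∧
    0 < orderOf (H65.SP.mp f (v : MonoidAlgebra ℤ G))
  rw [H65.SP.aug_mp]
  exact ⟨hv.1, Nat.pos_of_dvd_of_pos (H65.SP.orderOf_mp_dvd f _) hv.2⟩

theorem tameIn_iff {p : ℕ} (hp : p.Prime) (M : Subgroup G) : TameIn p M ↔ H65.SP.TameIn p M := by
  constructor
  · rintro ⟨k, N, h0, hk, hn, hle, hrel⟩
    refine ⟨k, N, h0, hk, hn, hle, fun i hi => ?_⟩
    rcases hrel i hi with h | h | h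
    · exact Or.inl h
    · have := hn i
      exact Or.inr (H65.SP.freeFactor_of_not_dvd hp _ _ h)
    · exact Or.inr h
  · rintro ⟨k, N, h0, hk, hn, hle, hrel⟩
    refine ⟨k, N, h0, hk, hn, hle, fun i hi => ?_⟩
    rcases hrel i hi with h | h
    · exact Or.inl h
    · exact Or.inr (Or.inr h)

end

/-- **Theorem.** Let `G` be a finite group, `f` and `g` homomorphisms whose kernels intersect trivially,
and `p` a prime such that one of the kernels is `p`-tame. The `p`-part of the order of a torsion unit of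
augmentation `1` is the maximum of the `p`-parts of the orders of its two images. -/
theorem result {G A B : Type u} [Group G] [Finite G] [Group A] [Group B] (f : G →* A) (g : G →* B)
    (hfg : f.ker ⊓ g.ker = ⊥) (p : ℕ) (hp : p.Prime) (ht : TameIn p f.ker ∨ TameIn p g.ker)
    (v : (MonoidAlgebra ℤ G)ˣ) (hv : IsTorsion v) :
    padicValNat p (orderOf v) =
      max (padicValNat p (orderOf (unitMap f v))) (padicValNat p (orderOf (unitMap g v))) := by
  rw [isTorsion_iff] at hv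
  rw [tameIn_iff hp, tameIn_iff hp] at ht
  rw [orderOf_unitMap, orderOf_unitMap, ← orderOf_units]
  exact H65.SP.padicValNat_orderOf f g hfg hp ht _ hv.1 hv.2

/-! ### Corollaries (not part of the statement `result`) -/

section

/-- the orders of the torsion units of augmentation `1` -/
def Spec (G : Type u) [Group G] : Set ℕ :=
  {n | ∃ v : (MonoidAlgebra ℤ G)ˣ, IsTorsion v ∧ orderOf v = n}

theorem mem_Spec_of {G : Type u} [Group G] {w : MonoidAlgebra ℤ G}
    (h1 : H58.SP.sg (Set.univ : Set G) w = 1) (h2 : 0 < orderOf w) : orderOf w ∈ Spec G := by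
  let v : (MonoidAlgebra ℤ G)ˣ := Units.ofPowEqOne w (orderOf w) (pow_orderOf_eq_one w) h2.ne'
  have hv : (v : MonoidAlgebra ℤ G) = w := rfl
  refine ⟨v, (isTorsion_iff v).2 ?_, ?_⟩
  · rw [hv]
    exact ⟨h1, h2⟩
  · rw [← orderOf_units, hv]

/-- the orders for a direct product -/
theorem corollary_product {A B : Type u} [Group A] [Finite A] [Group B] [Finite B]
    (ht : ∀ p : ℕ, p.Prime → TameIn p (⊤ : Subgroup A) ∨ TameIn p (⊤ : Subgroup B)) :
    Spec (A × B) = {n | ∃ a ∈ Spec A, ∃ b ∈ Spec B, n = Nat.lcm a b} := by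
  ext n
  constructor
  · rintro ⟨v, hv, rfl⟩
    refine ⟨_, ⟨_, isTorsion_unitMap (MonoidHom.fst A B) hv, rfl⟩, _,
      ⟨_, isTorsion_unitMap (MonoidHom.snd A B) hv, rfl⟩, ?_⟩
    rw [isTorsion_iff] at hv
    rw [orderOf_unitMap, orderOf_unitMap, ← orderOf_units]
    refine H65.SP.orderOf_eq_lcm' (MonoidHom.fst A B) (MonoidHom.snd A B) H65.SP.ker_fst_inf_ker_snd ?_ _
      hv.1 hv.2
    intro p hp
    rcases ht p hp with h | h
    · exact Or.inr (H65.SP.tameIn_ker_snd ((tameIn_iff hp _).1 h))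
    · exact Or.inl (H65.SP.tameIn_ker_fst ((tameIn_iff hp _).1 h))
  · rintro ⟨a, ⟨v, hv, rfl⟩, b, ⟨w, hw, rfl⟩, rfl⟩
    rw [isTorsion_iff] at hv hw
    obtain ⟨h1, h2⟩ := H65.SP.orderOf_prod (v : MonoidAlgebra ℤ A) (w : MonoidAlgebra ℤ B) hv.1 hw.1
    rw [← orderOf_units, ← orderOf_units, ← h2]
    refine mem_Spec_of h1 ?_
    rw [h2]
    exact Nat.lcm_pos hv.2 hw.2

/-- the spectrum property passes to direct products -/
theorem corollary_spectrum {A B : Type u} [Group A] [Finite A] [Group B] [Finite B]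
    (ht : ∀ p : ℕ, p.Prime → TameIn p (⊤ : Subgroup A) ∨ TameIn p (⊤ : Subgroup B))
    (hA : ∀ n ∈ Spec A, ∃ x : A, orderOf x = n) (hB : ∀ n ∈ Spec B, ∃ x : B, orderOf x = n) :
    ∀ n ∈ Spec (A × B), ∃ x : A × B, orderOf x = n := by
  intro n hn
  rw [corollary_product ht] at hn
  obtain ⟨a, ha, b, hb, rfl⟩ := hn
  obtain ⟨x, rfl⟩ := hA a ha
  obtain ⟨y, rfl⟩ := hB b hb
  exact ⟨(x, y), Prod.orderOf_mk⟩

theorem tame_of_solvable {G : Type u} [Group G] [Finite G] (M : Subgroup G) [M.Normal] {p : ℕ}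
    (hp : p.Prime) (hs : Group.IsSolvable M) : TameIn p M :=
  (tameIn_iff hp M).2 ((H65.SP.pSolvableIn_solvable hp M hs).tameIn hp)

theorem tame_SL_two_prime {p q : ℕ} (hp : p.Prime) (hq : q.Prime) :
    TameIn p (⊤ : Subgroup (Matrix.SpecialLinearGroup (Fin 2) (ZMod q))) :=
  (tameIn_iff hp _).2 (H65.SP.tameIn_top_of_fpf hp (H65.SP.fpf_SL_prime hp hq))

theorem tame_SL_two (F : Type) [Field F] [Finite F] {p : ℕ} (hp : p.Prime) (hF : (p : F) ≠ 0) :
    TameIn p (⊤ : Subgroup (Matrix.SpecialLinearGroup (Fin 2) F)) :=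
  (tameIn_iff hp _).2 (H65.SP.tameIn_top_of_fpf hp (H65.SP.fpf_SL_natural F hp hF))

/-- Frobenius groups with (nilpotent) kernel `F` are `p`-tame for all `p` -/
theorem tame_of_frobenius {G : Type} [Group G] [Finite G] (F : Subgroup G) [F.Normal] (hF : F ≠ ⊥)
    (hnil : Group.IsNilpotent F) (hc : ∀ v ∈ F, v ≠ 1 → ∀ g : G, g * v = v * g → g ∈ F)
    (hcop : (Nat.card F).Coprime F.index) {p : ℕ} (hp : p.Prime) : TameIn p (⊤ : Subgroup G) :=
  (tameIn_iff hp _).2 (H65.SP.tame_frobenius F hF hnil hc hcop hp)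

theorem tame_of_unique (K : Type) [Group K] [Finite K] {p : ℕ} (hp : p.Prime)
    (h : ∀ x y : K, orderOf x = p → orderOf y = p → y ∈ Subgroup.zpowers x) :
    TameIn p (⊤ : Subgroup K) :=
  (tameIn_iff hp _).2 (H65.SP.tameIn_top_of_fpf hp (H65.SP.fpf_unique hp h))

theorem tame_of_perm (K X : Type) [Group K] [Finite X] [MulAction K X] {p : ℕ} (hp : p.Prime)
    (hX : Nat.card X = p ∨ Nat.card X = p + 1) (h : ∀ x : K, orderOf x = p → ∃ a : X, x • a ≠ a) :
    TameIn p (⊤ : Subgroup K) :=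
  (tameIn_iff hp _).2 (H65.SP.tameIn_top_of_fpf hp (H65.SP.fpf_perm hp X hX h))

end

end Pool.Agent.Results.MP_6f6ee6_al.TameKernels
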